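import Pool.Agent.K3h3.KT.Lift

/-!
# Uniqueness of the extension when the top group is perfect
-/

set_option autoImplicit false
set_option linter.unusedSectionVars false
set_option linter.style.haveILetI false

open scoped BigOperators Classical

noncomputable section

namespace Pool.Agent.K3h3.KT

open Pool.Agent.Helper884 Pool.Agent.H254R3.IN Pool.Agent.Q288.MB SemidirectProduct
open Pool.Agent.Q90.WR (irr_of_norm deg_pos irr_comp B_nat irr_nontrivial irr_gal)
open Pool.Agent.K3h3.KB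
open IC (Irr)
open Representation

/-- the regular character -/
theorem reg {S : Type} [Group S] [Fintype S] (s : S) :
    ∑ ψ ∈ Irr S, ψ 1 * ψ s = if s = 1 then (Nat.card S : ℂ) else 0 := by
  have hS : (Nat.card S : ℂ) ≠ 0 := IC.cardG_ne
  have hcl : IC.IsClass (fun t : S => if t = 1 then (1 : ℂ) else 0) := by
    intro g y
    have : y * g * y⁻¹ = 1 ↔ g = 1 := by
      rw [mul_inv_eq_one]
      exact mul_eq_left
    simp only [this]
  have h := congrFun (IC.expand _ hcl) s
  rw [Finset.sum_apply] at h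
  have h1 : ∀ ψ : S → ℂ, IC.B (fun t : S => if t = 1 then (1 : ℂ) else 0) ψ =
      (Nat.card S : ℂ)⁻¹ * ψ 1 := by
    intro ψ
    unfold IC.B
    congr 1
    simp
  simp only [h1, Pi.smul_apply, smul_eq_mul] at h
  have h2 : ∑ ψ ∈ Irr S, ψ 1 * ψ s =
      Nat.card S * ∑ ψ ∈ Irr S, (Nat.card S : ℂ)⁻¹ * ψ 1 * ψ s := by
    rw [Finset.mul_sum]
    refine Finset.sum_congr rfl fun ψ _ => ?_
    field_simp
  rw [h2, ← h]
  split_ifs <;> simp

/-- linear characters of perfect groups are trivial -/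
theorem lin_triv {S : Type} [Group S] (hS : commutator S = ⊤) {ψ : S → ℂ}
    (hψ : IsIrr ψ) (h1 : ψ 1 = 1) : ψ = fun _ => 1 := by
  obtain ⟨V, _, _, _, ρ, _, rfl⟩ := hψ
  rw [char_one] at h1
  have hV : Module.finrank ℂ V = 1 := by exact_mod_cast h1
  let b : Module.Basis (Fin 1) ℂ V := Module.finBasisOfFinrankEq ℂ V hV
  let f : S →* ℂ := (LinearMap.det : (V →ₗ[ℂ] V) →* ℂ).comp ρ
  have hf : ∀ s, f s = 1 := by
    intro s
    have h2 : s ∈ f.toHomUnits.ker := by
      have h3 := Abelianization.commutator_subset_ker f.toHomUnits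
      rw [hS] at h3
      exact h3 (Subgroup.mem_top _)
    have h3 := congrArg (fun u : ℂˣ => (u : ℂ)) h2
    simpa using h3
  funext s
  have h2 := hf s
  change LinearMap.det (ρ s) = 1 at h2
  change LinearMap.trace ℂ V (ρ s) = 1
  rw [← LinearMap.det_toMatrix b, Matrix.det_fin_one] at h2
  rw [LinearMap.trace_eq_matrix_trace ℂ b, Matrix.trace_fin_one]
  exact h2

section sd

variable {N S V : Type} [Group N] [Group S] [Fintype N] [Fintype S] {φ : S →* MulAut N}
    [AddCommGroup V] [Module ℂ V] [FiniteDimensional ℂ V] (τ : Representation ℂ (N ⋊[φ] S) V)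

theorem sInd_eq_sum (n : N ⋊[φ] S) :
    sInd φ (fun m => τ.character (inl m)) n = ∑ ψ ∈ Irr S, ψ 1 * up τ.character ψ n := by
  have hcl : IsCl τ.character := IC.isClass_char τ
  have h1 : ∑ ψ ∈ Irr S, ψ 1 * up τ.character ψ n =
      τ.character n * ∑ ψ ∈ Irr S, ψ 1 * ψ n.right := by
    rw [Finset.mul_sum]
    refine Finset.sum_congr rfl fun ψ _ => ?_
    unfold up
    ring
  rw [h1, reg]
  unfold sInd
  by_cases hn : n.right = 1
  · rw [if_pos hn, if_pos hn]
    have h2 : ∀ t : S, τ.character (inl (φ t n.left)) = τ.character (inl n.left) :=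
      fun t => cl_inl hcl t _
    simp_rw [h2]
    have h3 : (inl n.left : N ⋊[φ] S) = n := by
      ext
      · simp
      · simp [hn]
    rw [h3, Finset.sum_const, Finset.card_univ, nsmul_eq_mul, Nat.card_eq_fintype_card, mul_comm]
  · rw [if_neg hn, if_neg hn, mul_zero]

/-- **Gallagher.** -/
theorem gallagher (h : IsIrr fun n : N => τ.character (inl n)) {E' : N ⋊[φ] S → ℂ}
    (hE : IsIrr E') (he : ∀ n, E' (inl n) = τ.character (inl n)) :
    ∃ ψ : S → ℂ, IsIrr ψ ∧ ψ 1 = 1 ∧ E' = up τ.character ψ := by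
  have hcl : IsCl E' := fun g y => hE.conj g y
  have h1 : IC.B (sInd φ (fun m => τ.character (inl m))) E' = 1 := by
    rw [B_sInd _ hcl]
    have : (fun n => E' (inl n)) = fun n => τ.character (inl n) := funext he
    rw [this, IC.B_irr h h, if_pos rfl]
  have h2 : sInd φ (fun m => τ.character (inl m)) =
      ∑ ψ ∈ Irr S, ψ 1 • up τ.character ψ := by
    funext n
    rw [sInd_eq_sum, Finset.sum_apply]
    rfl
  have h3 : ∀ ψ ∈ Irr S, IC.B (ψ 1 • up τ.character ψ) E' =
      if up τ.character ψ = E' then ψ 1 else 0 := by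
    intro ψ hψ
    rw [IC.B_smul_left, IC.B_irr (up_irr τ h (IC.mem_Irr.mp hψ)) hE]
    split_ifs
    · rw [mul_one]
    · rw [mul_zero]
  rw [h2, IC.B_sum_left, Finset.sum_congr rfl h3] at h1
  obtain ⟨ψ, hψ, hne⟩ := Finset.exists_ne_zero_of_sum_ne_zero (by rw [h1]; exact one_ne_zero)
  have he' : up τ.character ψ = E' := by
    by_contra hcon
    exact hne (if_neg hcon)
  have hi := IC.mem_Irr.mp hψ
  rw [Finset.sum_eq_single ψ] at h1
  · rw [if_pos he'] at h1
    exact ⟨ψ, hi, h1, he'.symm⟩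
  · intro ψ' hψ' hne'
    rw [if_neg]
    intro h4
    exact hne' (up_inj τ h (IC.mem_Irr.mp hψ') hi (h4.trans he'.symm))
  · intro h4
    exact absurd hψ h4

/-- the extension is unique when `S` is perfect -/
theorem unique (hS : commutator S = ⊤) (h : IsIrr fun n : N => τ.character (inl n))
    {E' : N ⋊[φ] S → ℂ} (hE : IsIrr E') (he : ∀ n, E' (inl n) = τ.character (inl n)) :
    E' = τ.character := by
  obtain ⟨ψ, h1, h2, rfl⟩ := gallagher τ h hE he
  rw [lin_triv hS h1 h2]
  funext x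
  unfold up
  rw [mul_one]

/-- the extension of a rational character to `N ⋊ S` with `S` perfect is rational -/
theorem gal_fix (hS : commutator S = ⊤) (h : IsIrr fun n : N => τ.character (inl n))
    (σ : ℂ ≃+* ℂ) (hσ : ∀ n, σ (τ.character (inl n)) = τ.character (inl n)) (x : N ⋊[φ] S) :
    σ (τ.character x) = τ.character x := by
  have hi : IsIrr τ.character := by
    have := up_irr τ h (ψ := fun _ => 1) (by simpa using lin_irr (1 : S →* ℂˣ))
    have e : up τ.character (fun _ => 1) = τ.character := by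
      funext x
      unfold up
      rw [mul_one]
    rwa [e] at this
  exact congrFun (unique τ hS h (irr_gal σ hi) hσ) x

theorem gal_up (σ : ℂ ≃+* ℂ) {E : N ⋊[φ] S → ℂ} (hσ : ∀ x, σ (E x) = E x) (B : Set (S → ℂ)) :
    gal σ (up E '' B) = up E '' (gal σ B) := by
  have key : ∀ ψ : S → ℂ, (fun x => σ (up E ψ x)) = up E fun s => σ (ψ s) := by
    intro ψ
    funext x
    unfold up
    rw [map_mul, hσ]
  ext χ
  constructor
  · rintro ⟨_, ⟨ψ, h, rfl⟩, rfl⟩
    exact ⟨_, ⟨ψ, h, rfl⟩, (key ψ).symm⟩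
  · rintro ⟨_, ⟨ψ, h, rfl⟩, rfl⟩
    exact ⟨_, ⟨ψ, h, rfl⟩, (key ψ).symm⟩

end sd

end Pool.Agent.K3h3.KT
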