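import Mathlib

/-!
# A computation in the alternating group of degree 6
-/

set_option autoImplicit false

open scoped BigOperators

namespace Pool.Agent.K3h3.KT

/-- the number of the fixed unordered pairs (with repetition) minus twice the number of the fixed
points -/
def th (g : Equiv.Perm (Fin 6)) : ℤ :=
  (∑ s : Sym2 (Fin 6), if s.map g = s then 1 else 0) - 2 * (∑ i : Fin 6, if g i = i then 1 else 0)

set_option maxRecDepth 100000 in
theorem th_norm :
    (∑ g : Equiv.Perm (Fin 6), if Equiv.Perm.sign g = 1 then th g ^ 2 else 0) = 360 := by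
  decide +kernel

theorem sum_alt (n : ℕ) (f : Equiv.Perm (Fin n) → ℤ) :
    ∑ g : alternatingGroup (Fin n), f (g : Equiv.Perm (Fin n)) =
      ∑ g : Equiv.Perm (Fin n), if Equiv.Perm.sign g = 1 then f g else 0 := by
  rw [← Finset.sum_filter]
  refine (Finset.sum_subtype _ (p := fun g => g ∈ alternatingGroup (Fin n)) (fun g => ?_) _).symm
  rw [Finset.mem_filter, Equiv.Perm.mem_alternatingGroup]
  simp

theorem th_norm' : ∑ g : alternatingGroup (Fin 6), th (g : Equiv.Perm (Fin 6)) ^ 2 = 360 :=
  (sum_alt 6 fun g => th g ^ 2).trans th_norm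

theorem th_one : th 1 = 9 := by
  decide +kernel

end Pool.Agent.K3h3.KT
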