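import Pool.Agent.K3h3.KT.Uni
import Pool.Agent.K3h3.KT.Dec

/-!
# Rational characters of full defect zero of alternating groups
-/

set_option autoImplicit false
set_option linter.unusedSectionVars false
set_option linter.style.haveILetI false

open scoped BigOperators Classical

noncomputable section

namespace Pool.Agent.K3h3.KT

open Pool.Agent.Helper884 Pool.Agent.H254R3.IN Pool.Agent.Q288.MB
open Pool.Agent.Q90.WR (irr_of_norm deg_pos irr_comp B_nat irr_nontrivial irr_gal)
open Pool.Agent.K3h3.KB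
open IC (Irr)
open Representation MulAction

section pc

variable (G X : Type) [Group G] [MulAction G X] [Fintype X]

/-- the permutation representation -/
def pRep : Representation ℂ G (X → ℂ) where
  toFun g :=
    { toFun := fun f x => f (g⁻¹ • x)
      map_add' := fun _ _ => rfl
      map_smul' := fun _ _ => rfl }
  map_one' := by
    ext f x
    simp
  map_mul' g h := by
    apply LinearMap.ext
    intro f
    funext x
    simp [mul_smul]

/-- the number of fixed points -/
def pc (g : G) : ℕ := Nat.card (fixedBy X g)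

theorem pc_sum (g : G) : pc G X g = ∑ x : X, if g • x = x then 1 else 0 := by
  unfold pc
  rw [Nat.card_eq_fintype_card, Finset.sum_boole, Nat.cast_id]
  exact Fintype.card_subtype _

theorem pc_inv (g : G) : pc G X g⁻¹ = pc G X g := by
  unfold pc
  refine Nat.card_congr (Equiv.subtypeEquivRight fun x => ?_)
  rw [mem_fixedBy, mem_fixedBy, inv_smul_eq_iff, eq_comm]

theorem pRep_char (g : G) : (pRep G X).character g = pc G X g := by
  change LinearMap.trace ℂ _ (pRep G X g) = _
  rw [LinearMap.trace_eq_matrix_trace ℂ (Pi.basisFun ℂ X), ← pc_inv, pc_sum]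
  unfold Matrix.trace Matrix.diag
  push_cast
  refine Finset.sum_congr rfl fun x _ => ?_
  rw [LinearMap.toMatrix_apply]
  simp only [Pi.basisFun_apply, Pi.basisFun_repr]
  change (Pi.single x (1 : ℂ) : X → ℂ) (g⁻¹ • x) = _
  rw [Pi.single_apply]

theorem pc_cl : IC.IsClass fun g : G => (pc G X g : ℂ) := by
  intro g y
  simp only [← pRep_char]
  exact (pRep G X).char_conj _ _

variable [Fintype G]

theorem sum_pc : ∑ g : G, pc G X g = Nat.card (orbitRel.Quotient G X) * Nat.card G := by
  haveI : Fintype (orbitRel.Quotient G X) := Fintype.ofFinite _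
  have h := sum_card_fixedBy_eq_card_orbits_mul_card_group G X
  rw [Nat.card_eq_fintype_card, Nat.card_eq_fintype_card, ← h]
  refine Finset.sum_congr rfl fun g _ => ?_
  unfold pc
  rw [Nat.card_eq_fintype_card]

theorem pc_prod (g : G) : pc G (X × X) g = pc G X g ^ 2 := by
  unfold pc
  rw [sq, ← Nat.card_prod]
  refine Nat.card_congr
    { toFun := fun y => (⟨y.1.1, congrArg Prod.fst y.2⟩, ⟨y.1.2, congrArg Prod.snd y.2⟩)
      invFun := fun y => ⟨(y.1.1, y.2.1), Prod.ext y.1.2 y.2.2⟩
      left_inv := fun _ => rfl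
      right_inv := fun _ => rfl }

/-- two orbits on the pairs -/
theorem card_orb_prod (h2 : ∀ a b c d : X, a ≠ b → c ≠ d → ∃ g : G, g • a = c ∧ g • b = d)
    (hX : 2 ≤ Nat.card X) : Nat.card (orbitRel.Quotient G (X × X)) = 2 := by
  have hnt : Nontrivial X := Finite.one_lt_card_iff_nontrivial.mp hX
  obtain ⟨u, v, huv⟩ := exists_pair_ne X
  have h1 : ∀ a c : X, ∃ g : G, g • a = c := by
    intro a c
    obtain ⟨b, hb⟩ := exists_ne a
    obtain ⟨d, hd⟩ := exists_ne c
    obtain ⟨g, hg, -⟩ := h2 a b c d hb.symm hd.symm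
    exact ⟨g, hg⟩
  let F : orbitRel.Quotient G (X × X) → Prop := Quotient.lift (fun y : X × X => y.1 = y.2) (by
    rintro ⟨a, b⟩ ⟨c, d⟩ ⟨g, hg⟩
    have e1 : g • c = a := congrArg Prod.fst hg
    have e2 : g • d = b := congrArg Prod.snd hg
    subst e1 e2
    simp)
  have hF : Function.Bijective F := by
    constructor
    · intro y z
      induction y using Quotient.inductionOn with
      | _ y =>
        induction z using Quotient.inductionOn with
        | _ z =>
          intro h
          obtain ⟨a, b⟩ := y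
          obtain ⟨c, d⟩ := z
          change (a = b) = (c = d) at h
          apply Quotient.sound
          change (a, b) ∈ orbit G (c, d)
          by_cases hab : a = b
          · have hcd : c = d := h ▸ hab
            subst hab hcd
            obtain ⟨g, hg⟩ := h1 c a
            exact ⟨g, Prod.ext hg hg⟩
          · have hcd : ¬ c = d := h ▸ hab
            obtain ⟨g, hg1, hg2⟩ := h2 c d a b hcd hab
            exact ⟨g, Prod.ext hg1 hg2⟩
    · intro P
      by_cases hP : P
      · exact ⟨Quotient.mk _ (u, u), by simp [F, hP]⟩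
      · exact ⟨Quotient.mk _ (u, v), by simp [F, hP, huv]⟩
  rw [Nat.card_eq_of_bijective F hF]
  simp

/-- the number of fixed points minus one is an irreducible character of a 2-transitive group -/
theorem nat_irr (h2 : ∀ a b c d : X, a ≠ b → c ≠ d → ∃ g : G, g • a = c ∧ g • b = d)
    (hX : 2 ≤ Nat.card X) : IsIrr fun g : G => (pc G X g : ℂ) - 1 := by
  have hG : (Nat.card G : ℂ) ≠ 0 := IC.cardG_ne
  refine irr_of_norm ?_ ?_ ?_ ?_
  · intro g y
    have := pc_cl G X g y
    simp only at this ⊢
    rw [this]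
  · rintro χ ⟨V, _, _, _, ρ, _, rfl⟩
    obtain ⟨a, ha⟩ := B_nat (pRep G X) ρ
    obtain ⟨b, hb⟩ := B_nat (IC.oneRep (1 : G →* ℂˣ)) ρ
    refine ⟨(a : ℤ) - b, ?_⟩
    push_cast
    rw [← ha, ← hb]
    unfold IC.B
    rw [← mul_sub, ← Finset.sum_sub_distrib]
    congr 1
    refine Finset.sum_congr rfl fun g _ => ?_
    rw [pRep_char, IC.oneRep_char]
    simp
    ring
  · have e1 : Nat.card (orbitRel.Quotient G X) = 1 := by
      have hp : IsPretransitive G X := by
        have hnt : Nontrivial X := Finite.one_lt_card_iff_nontrivial.mp hX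
        refine ⟨fun a c => ?_⟩
        obtain ⟨b, hb⟩ := exists_ne a
        obtain ⟨d, hd⟩ := exists_ne c
        obtain ⟨g, hg, -⟩ := h2 a b c d hb.symm hd.symm
        exact ⟨g, hg⟩
      have hne : Nonempty X := (Nat.card_pos_iff.mp (by omega)).1
      obtain ⟨hu⟩ := (pretransitive_iff_unique_quotient_of_nonempty (G := G) (α := X)).mp hp
      exact Nat.card_unique
    have s1 := sum_pc G X
    have s2 := sum_pc G (X × X)
    rw [e1, one_mul] at s1
    rw [card_orb_prod G X h2 hX] at s2
    simp only [pc_prod] at s2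
    have s1' : ∑ g : G, (pc G X g : ℂ) = Nat.card G := by exact_mod_cast s1
    have s2' : ∑ g : G, (pc G X g : ℂ) ^ 2 = 2 * Nat.card G := by exact_mod_cast s2
    unfold IC.B
    have h : ∑ g : G, ((pc G X g : ℂ) - 1) * ((pc G X g⁻¹ : ℂ) - 1) = Nat.card G := by
      have h3 : ∀ g : G, ((pc G X g : ℂ) - 1) * ((pc G X g⁻¹ : ℂ) - 1) =
          (pc G X g : ℂ) ^ 2 - 2 * pc G X g + 1 := by
        intro g
        rw [pc_inv]
        ring
      simp_rw [h3]
      rw [Finset.sum_add_distrib, Finset.sum_sub_distrib, s2', ← Finset.mul_sum, s1']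
      simp [Nat.card_eq_fintype_card]
    rw [h, inv_mul_cancel₀ hG]
  · refine ⟨Nat.card X - 1, ?_⟩
    have : pc G X 1 = Nat.card X := by
      rw [pc_sum]
      simp [Nat.card_eq_fintype_card]
    rw [this, Nat.cast_sub (by omega)]
    simp

end pc

theorem alt_two {n : ℕ} (hn : 4 ≤ n) (a b c d : Fin n) (hab : a ≠ b) (hcd : c ≠ d) :
    ∃ g : alternatingGroup (Fin n), g • a = c ∧ g • b = d := by
  have h := alternatingGroup.isMultiplyPretransitive (Fin n)
  rw [Nat.card_eq_fintype_card, Fintype.card_fin] at h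
  have h2 : IsMultiplyPretransitive (alternatingGroup (Fin n)) (Fin n) 2 :=
    isMultiplyPretransitive_of_le (by omega : 2 ≤ n - 2) (by simp)
  exact is_two_pretransitive_iff.mp h2 hab hcd

theorem nat_alt {n : ℕ} (hn : 4 ≤ n) :
    IsIrr fun g : alternatingGroup (Fin n) => (pc (alternatingGroup (Fin n)) (Fin n) g : ℂ) - 1 :=
  nat_irr _ _ (alt_two hn) (by simp; omega)

/-! ### the alternating group of degree 6 -/

/-- the unordered pairs -/
def S2 : Type := Sym2 (Fin 6)

instance : Fintype S2 := inferInstanceAs (Fintype (Sym2 (Fin 6)))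

instance : MulAction (alternatingGroup (Fin 6)) S2 where
  smul g s := Sym2.map (g : Equiv.Perm (Fin 6)) s
  one_smul s := congrFun (Sym2.map_id (α := Fin 6)) s
  mul_smul g h s := (Sym2.map_map (g := (g : Equiv.Perm (Fin 6))) (f := (h : Equiv.Perm (Fin 6)))
    s).symm

/-- the character of degree 9 -/
def t9 (g : alternatingGroup (Fin 6)) : ℂ :=
  (pc (alternatingGroup (Fin 6)) S2 g : ℂ) - 2 * pc (alternatingGroup (Fin 6)) (Fin 6) g

theorem t9_eq (g : alternatingGroup (Fin 6)) : t9 g = (th (g : Equiv.Perm (Fin 6)) : ℂ) := by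
  unfold t9 th
  rw [pc_sum, pc_sum]
  push_cast
  have h1 : (∑ x : S2, if g • x = x then (1 : ℂ) else 0) =
      ∑ s : Sym2 (Fin 6), if s.map (g : Equiv.Perm (Fin 6)) = s then (1 : ℂ) else 0 := by
    refine Finset.sum_congr rfl fun s _ => ?_
    by_cases h : Sym2.map (g : Equiv.Perm (Fin 6)) s = s
    · rw [if_pos h, if_pos (show g • s = s from h)]
    · rw [if_neg h, if_neg (show ¬ g • s = s from h)]
  have h2 : (∑ x : Fin 6, if g • x = x then (1 : ℂ) else 0) =
      ∑ x : Fin 6, if (g : Equiv.Perm (Fin 6)) x = x then (1 : ℂ) else 0 := by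
    refine Finset.sum_congr rfl fun s _ => ?_
    exact if_congr Iff.rfl rfl rfl
  rw [h1, h2]

theorem t9_inv (g : alternatingGroup (Fin 6)) : t9 g⁻¹ = t9 g := by
  unfold t9
  rw [pc_inv, pc_inv]

theorem card_a6 : Nat.card (alternatingGroup (Fin 6)) = 360 := by
  rw [nat_card_alternatingGroup, Nat.card_eq_fintype_card, Fintype.card_fin]
  decide

theorem t9_norm : ∑ g : alternatingGroup (Fin 6), t9 g * t9 g⁻¹ = 360 := by
  have h1 : ∑ g : alternatingGroup (Fin 6), t9 g * t9 g⁻¹ =
      ((∑ g : alternatingGroup (Fin 6), th (g : Equiv.Perm (Fin 6)) ^ 2 : ℤ) : ℂ) := by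
    push_cast
    refine Finset.sum_congr rfl fun g _ => ?_
    rw [t9_inv, t9_eq]
    ring
  rw [h1, th_norm']
  norm_num

theorem t9_irr : IsIrr t9 := by
  refine irr_of_norm ?_ ?_ ?_ ?_
  · intro g y
    unfold t9
    have h1 := pc_cl (alternatingGroup (Fin 6)) S2 g y
    have h2 := pc_cl (alternatingGroup (Fin 6)) (Fin 6) g y
    simp only at h1 h2
    rw [h1, h2]
  · rintro χ ⟨V, _, _, _, ρ, _, rfl⟩
    obtain ⟨a, ha⟩ := B_nat (pRep (alternatingGroup (Fin 6)) S2) ρ
    obtain ⟨b, hb⟩ := B_nat (pRep (alternatingGroup (Fin 6)) (Fin 6)) ρ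
    refine ⟨(a : ℤ) - 2 * b, ?_⟩
    push_cast
    rw [← ha, ← hb]
    unfold IC.B
    simp only [pRep_char]
    rw [mul_left_comm, ← mul_sub]
    congr 1
    rw [Finset.mul_sum, ← Finset.sum_sub_distrib]
    refine Finset.sum_congr rfl fun g _ => ?_
    unfold t9
    ring
  · unfold IC.B
    rw [t9_norm, card_a6]
    norm_num
  · refine ⟨9, ?_⟩
    rw [t9_eq]
    have : ((1 : alternatingGroup (Fin 6)) : Equiv.Perm (Fin 6)) = 1 := rfl
    rw [this, th_one]
    norm_num

/-! ### all primes -/

theorem fac_mul {p : ℕ} {m k : ℕ} (hm : m ≠ 0) (hk : ¬ p ∣ k) :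
    (m * k).factorization p = m.factorization p := by
  have hk0 : k ≠ 0 := by
    rintro rfl
    exact hk (dvd_zero p)
  rw [Nat.factorization_mul hm hk0, Finsupp.add_apply, Nat.factorization_eq_zero_of_not_dvd hk,
    add_zero]

theorem exists_theta (p : ℕ) [hp : Fact p.Prime] : ∃ n : ℕ, 5 ≤ n ∧ p ≤ n ∧ n ≤ p + 3 ∧
    ∃ θ : alternatingGroup (Fin n) → ℂ, IsIrr θ ∧ (∀ (σ : ℂ ≃+* ℂ) k, σ (θ k) = θ k) ∧
      vd p θ = (Nat.card (alternatingGroup (Fin n))).factorization p := by
  have hnat : ∀ n : ℕ, 5 ≤ n → ∀ k : ℕ, ¬ p ∣ k →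
      Nat.card (alternatingGroup (Fin n)) = (n - 1) * k →
      ∃ θ : alternatingGroup (Fin n) → ℂ, IsIrr θ ∧ (∀ (σ : ℂ ≃+* ℂ) k, σ (θ k) = θ k) ∧
        vd p θ = (Nat.card (alternatingGroup (Fin n))).factorization p := by
    intro n hn k hk hc
    refine ⟨_, nat_alt (by omega), fun σ g => by rw [map_sub, map_natCast, map_one], ?_⟩
    rw [hc, fac_mul (by omega) hk]
    unfold vd
    congr 1
    congr 1
    apply ndeg_eq
    have : pc (alternatingGroup (Fin n)) (Fin n) 1 = n := by
      rw [pc_sum]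
      simp
    rw [this, Nat.cast_sub (by omega)]
    simp
  have hp1 := hp.out.two_le
  by_cases h2 : p = 2
  · subst h2
    refine ⟨5, le_refl _, by omega, by omega, hnat 5 (le_refl _) 15 (by omega) ?_⟩
    rw [nat_card_alternatingGroup, Nat.card_eq_fintype_card, Fintype.card_fin]
    decide
  by_cases h3 : p = 3
  · subst h3
    refine ⟨6, by omega, by omega, by omega, t9, t9_irr, fun σ g => ?_, ?_⟩
    · rw [t9_eq, map_intCast]
    · rw [card_a6, show 360 = 9 * 40 from rfl, fac_mul (by omega) (by omega)]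
      unfold vd
      congr 1
      congr 1
      apply ndeg_eq
      rw [t9_eq]
      have : ((1 : alternatingGroup (Fin 6)) : Equiv.Perm (Fin 6)) = 1 := rfl
      rw [this, th_one]
      norm_num
  · have h4 : p ≠ 4 := by
      rintro rfl
      exact absurd hp.out (by norm_num)
    have hodd : Odd p := hp.out.odd_of_ne_two h2
    obtain ⟨j, hj⟩ := hodd
    refine ⟨p + 1, by omega, by omega, by omega, ?_⟩
    refine hnat (p + 1) (by omega) ((j + 1) * (p - 1).factorial) ?_ ?_
    · intro hd
      rcases hp.out.dvd_mul.mp hd with h | h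
      · have := Nat.le_of_dvd (by omega) h
        omega
      · have := (hp.out.dvd_factorial).mp h
        omega
    · have hnt : Nontrivial (Fin (p + 1)) := Fin.nontrivial_iff_two_le.mpr (by omega)
      have h5 := two_mul_nat_card_alternatingGroup (α := Fin (p + 1))
      rw [Nat.card_perm, Nat.card_eq_fintype_card (α := Fin (p + 1)), Fintype.card_fin] at h5
      have h6 : (p + 1).factorial = 2 * ((p + 1 - 1) * ((j + 1) * (p - 1).factorial)) := by
        have e1 : (p + 1).factorial = (p + 1) * p.factorial := Nat.factorial_succ p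
        have e2 : p.factorial = p * (p - 1).factorial := (Nat.mul_factorial_pred (by omega)).symm
        rw [e1, e2, Nat.add_sub_cancel, show p + 1 = 2 * (j + 1) by omega]
        ring
      omega

end Pool.Agent.K3h3.KT
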