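import Pool.Agent.K3h3.KT.Str

/-!
# The reduction to primitive groups with a unique minimal normal subgroup
-/

set_option autoImplicit false
set_option linter.unusedSectionVars false
set_option linter.style.haveILetI false

open scoped BigOperators Classical

noncomputable section

namespace Pool.Agent.K3h3.KT

open Pool.Agent.Helper884 Pool.Agent.H254R3.IN Pool.Agent.Q288.MB SemidirectProduct
open Pool.Agent.K3h3.KB
open Pool.Agent.K3h3.MK (Wr rAct rAct_apply)

/-- `T` is the only minimal normal subgroup of the group `X`, and `T` is a direct product of copies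
of the alternating group of degree `n` where `n ≥ 5` and `p ≤ n ≤ p + 3`. -/
structure AltSocle (p : ℕ) {X : Type} [Group X] (T : Subgroup X) : Prop where
  normal : T.Normal
  ne_bot : T ≠ ⊥
  le : ∀ N : Subgroup X, N.Normal → N ≠ ⊥ → T ≤ N
  alt : ∃ (n : ℕ) (I : Type), Finite I ∧ 5 ≤ n ∧ p ≤ n ∧ n ≤ p + 3 ∧
    Nonempty (T ≃* (I → alternatingGroup (Fin n)))

/-- `X` has a faithful primitive permutation representation: there is a maximal subgroup that
contains no nontrivial normal subgroup of `X`. -/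
def IsPrimGroup (X : Type) [Group X] : Prop :=
  ∃ M : Subgroup X, IsCoatom M ∧ ∀ N : Subgroup X, N.Normal → N ≤ M → N = ⊥

theorem exists_coatom {K : Type} [Group K] [Finite K] [IsSimpleGroup K]
    (hK : commutator K = ⊤) : ∃ M : Subgroup K, IsCoatom M ∧ M ≠ ⊥ := by
  obtain ⟨g, hg⟩ := exists_ne (1 : K)
  rcases eq_top_or_exists_le_coatom (Subgroup.zpowers g) with h | ⟨M, hM, hle⟩
  · exfalso
    have h1 : commutator K = ⊥ := by
      rw [commutator_def, Subgroup.commutator_eq_bot_iff_le_centralizer]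
      intro x hx
      rw [Subgroup.mem_centralizer_iff]
      intro y hy
      rw [← h] at hx hy
      obtain ⟨a, rfl⟩ := hx
      obtain ⟨b, rfl⟩ := hy
      exact (Commute.refl g).zpow_zpow _ _
    rw [h1] at hK
    exact bot_ne_top hK
  · refine ⟨M, hM, fun h => hg ?_⟩
    have h1 : g ∈ M := hle (Subgroup.mem_zpowers g)
    rwa [h, Subgroup.mem_bot] at h1

theorem prim_wr {K S : Type} [Group K] [Group S] [Finite K] [Finite S] [IsSimpleGroup K]
    (hK : commutator K = ⊤) : IsPrimGroup (Wr K S) := by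
  obtain ⟨M, hM, hne⟩ := exists_coatom hK
  refine ⟨stb M, stb_coatom hM hne, fun N hN hle => ?_⟩
  by_contra hcon
  have h1 := (min_normal hK hN hcon).trans hle
  apply hM.1
  rw [eq_top_iff]
  intro k _
  have h2 : (si 1 k : Wr K S) ∈ (stb M : Subgroup (Wr K S)) := h1 ⟨_, rfl⟩
  have h3 := h2 1
  rw [si_apply, left_inl, Pi.mulSingle_eq_same] at h3
  exact h3

theorem altSocle_wr {p n : ℕ} {S : Type} [Group S] [Finite S] (h5 : 5 ≤ n) (h1 : p ≤ n)
    (h2 : n ≤ p + 3) :
    AltSocle p (inl : (S → alternatingGroup (Fin n)) →* Wr (alternatingGroup (Fin n)) S).range := by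
  have hc : 5 ≤ Nat.card (Fin n) := by simpa using h5
  have hs : IsSimpleGroup (alternatingGroup (Fin n)) := alternatingGroup.isSimpleGroup hc
  have hK : commutator (alternatingGroup (Fin n)) = ⊤ := commutator_alternatingGroup_eq_top hc
  refine ⟨base_normal, fun h => ?_, fun N hN hne => min_normal hK hN hne,
    n, S, inferInstance, h5, h1, h2, ⟨(MonoidHom.ofInjective inl_injective).symm⟩⟩
  obtain ⟨k, hk⟩ := exists_ne (1 : alternatingGroup (Fin n))
  have h3 : (si 1 k : Wr (alternatingGroup (Fin n)) S) ∈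
      (inl : (S → alternatingGroup (Fin n)) →* Wr (alternatingGroup (Fin n)) S).range := ⟨_, rfl⟩
  rw [h, Subgroup.mem_bot, si_apply] at h3
  have h4 := inl_injective (h3.trans (map_one _).symm)
  have h5 := congrFun h4 1
  rw [Pi.mulSingle_eq_same] at h5
  exact hk h5

theorem nontrivial_of_two {X : Type} [Group X] [Finite X] {B : Set (X → ℂ)}
    (hB : ∀ χ ∈ B, IsIrr χ) (h : 1 < Nat.card B) : Nontrivial X := by
  by_contra hcon
  rw [not_nontrivial_iff_subsingleton] at hcon
  have hft := Fintype.ofFinite X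
  have h1 : ∀ χ : X → ℂ, IsIrr χ → χ = fun _ => 1 := by
    intro χ hχ
    have h2 := IC.B_irr hχ hχ
    rw [if_pos rfl] at h2
    unfold IC.B at h2
    have h3 : ∀ g : X, g = 1 := fun g => Subsingleton.elim _ _
    rw [Fintype.sum_subsingleton _ (1 : X), Nat.card_of_subsingleton (1 : X), inv_one,
      ← ndeg_cast hχ] at h2
    have h4 : ndeg χ * ndeg χ = 1 := by
      have : (((1 : ℕ) : ℂ))⁻¹ * ((ndeg χ : ℂ) * ndeg χ) = 1 := h2
      rw [Nat.cast_one, inv_one, one_mul] at this
      exact_mod_cast this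
    have h5 : ndeg χ = 1 := Nat.eq_one_of_mul_eq_one_left h4
    funext g
    rw [h3 g, ← ndeg_cast hχ, h5, Nat.cast_one]
  have h2 : Subsingleton B := ⟨fun a b => Subtype.ext ((h1 _ (hB _ a.2)).trans
    (h1 _ (hB _ b.2)).symm)⟩
  have h3 := Finite.card_le_one_iff_subsingleton.mpr h2
  omega

variable {p : ℕ} [hp : Fact p.Prime] {O : ValuationSubring ℂ}

theorem reduction (hpO : (p : ℂ) ∈ O.nonunits) (Q : Type) [Group Q] [Finite Q] [Nontrivial Q] :
    (∀ (G : Type) [Group G] [Finite G] (B : Set (G → ℂ)) (d : ℕ), IsBlock O B →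
        HasDefect p B d → Nat.card B ≤ p ^ d) ↔
      ∀ ε : ℝ, 0 < ε → ∃ C : ℝ, ∀ (X : Type) [Group X] [Finite X] (T : Subgroup X)
        (B : Set (X → ℂ)) (d : ℕ), commutator X = ⊤ → GenBy Q X → IsPrimGroup X →
        AltSocle p T → IsBlock O B → (∀ σ : ℂ ≃+* ℂ, gal σ B = B) → HasDefect p B d →
        (Nat.card B : ℝ) ≤ C * (p ^ d : ℕ) * (T.index : ℝ) ^ ε := by
  constructor
  · intro h ε hε
    refine ⟨1, fun X _ _ T B d _ _ _ _ hB _ hd => ?_⟩
    have h1 := h X B d hB hd
    have h2 : (1 : ℝ) ≤ (T.index : ℝ) ^ ε := by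
      apply Real.one_le_rpow _ hε.le
      exact_mod_cast Nat.one_le_iff_ne_zero.mpr T.index_ne_zero_of_finite
    have h3 : (Nat.card B : ℝ) ≤ (p ^ d : ℕ) := by exact_mod_cast h1
    rw [one_mul]
    calc (Nat.card B : ℝ) ≤ (p ^ d : ℕ) * 1 := by rw [mul_one]; exact h3
      _ ≤ (p ^ d : ℕ) * (T.index : ℝ) ^ ε := by gcongr
  · intro h G _ _ B d hB hd
    by_contra hv
    push Not at hv
    obtain ⟨X, _, _, B', d', hX, hXQ, hB', hs, hd', hv'⟩ := exists_violation hpO Q hB hd hv
    have hfX := Fintype.ofFinite X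
    have hnt : Nontrivial X := nontrivial_of_two hB'.irr
      (lt_of_le_of_lt (Nat.one_le_pow _ _ hp.out.pos) hv')
    obtain ⟨ε, hε, h1⟩ := exists_eps (n := Nat.card X) (pow_pos hp.out.pos d') hv' Nat.card_pos
    obtain ⟨C, hC⟩ := h ε hε
    obtain ⟨t, ht⟩ := h1 (max C 1)
    have ht0 : t ≠ 0 := by
      rintro rfl
      rw [pow_zero, pow_zero, pow_zero, Nat.cast_one, Real.one_rpow, mul_one, mul_one] at ht
      exact absurd ht (not_lt.mpr (le_max_right _ _))
    have hne : Nonempty (Fin t) := ⟨⟨0, by omega⟩⟩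
    obtain ⟨B'', a1, a0, a2, a3, a4, a5⟩ := exists_power hX hXQ hB' hs hd' t
    obtain ⟨n, h5, hn1, hn2, θ, hθ, hσ, hv''⟩ := exists_theta p
    obtain ⟨b, b1, b2, b3, b4⟩ := exists_over (K := alternatingGroup (Fin n)) (S := Fin t → X)
      a1 hpO hθ hσ hv'' a2 a3 a4
    have hc : 5 ≤ Nat.card (Fin n) := by simpa using h5
    have hsi : IsSimpleGroup (alternatingGroup (Fin n)) := alternatingGroup.isSimpleGroup hc
    have hK : commutator (alternatingGroup (Fin n)) = ⊤ := commutator_alternatingGroup_eq_top hc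
    have h2 := hC (Wr (alternatingGroup (Fin n)) (Fin t → X)) _ b (t * d')
      (perf_sd (perf_pi hK) a1) (gen_wr hK a0) (prim_wr hK) (altSocle_wr h5 hn1 hn2) b1 b2 b3
    rw [b4, a5, index_base, Nat.card_fun, Nat.card_eq_fintype_card (α := Fin t), Fintype.card_fin,
      mul_comm t d', pow_mul] at h2
    have h3 : C * ((p ^ d') ^ t : ℕ) * ((Nat.card X ^ t : ℕ) : ℝ) ^ ε ≤
        max C 1 * ((p ^ d') ^ t : ℕ) * ((Nat.card X ^ t : ℕ) : ℝ) ^ ε := by
      gcongr
      exact le_max_left _ _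
    exact absurd (lt_of_le_of_lt (h2.trans h3) ht) (lt_irrefl _)

end Pool.Agent.K3h3.KT
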