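import Pool.Agent.K3h3.MK.Ext
import Pool.Agent.K3h3.KB.Fin

/-!
# Blocks above an extendible character of full defect zero

`W = N ⋊ S`, `τ` is a representation of `W` with irreducible restriction to `N`; `E` is its
character. For the blocks `B` of `S` the characters `E ψ`, `ψ ∈ B`, form a block of `W` with the same
defect, provided that `E(1)` is divisible by the full `p`-part of `|N|`.
-/

set_option autoImplicit false
set_option linter.unusedSectionVars false
set_option linter.style.haveILetI false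

open scoped BigOperators Classical

noncomputable section

namespace Pool.Agent.K3h3.KT

open Pool.Agent.Helper884 Pool.Agent.H254R3.IN Pool.Agent.Q288.MB SemidirectProduct
open Pool.Agent.Q90.WR (irr_of_norm deg_pos irr_comp B_nat irr_nontrivial)
open Pool.Agent.K3h3.KB
open IC (Irr)
open Representation

section schur

variable {N W V : Type} [Group N] [Group W] [Fintype N] [AddCommGroup V]
    [Module ℂ V] [FiniteDimensional ℂ V] (i : N →* W) (τ : Representation ℂ W V)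

theorem schur' (h : IsIrr fun n => τ.character (i n)) (T : V →ₗ[ℂ] V)
    (hT : ∀ n, T ∘ₗ τ (i n) = τ (i n) ∘ₗ T) : ∃ c : ℂ, T = c • LinearMap.id := by
  let τ' : Representation ℂ N V := τ.comp i
  have e : (fun n => τ.character (i n)) = τ'.character := rfl
  rw [e] at h
  have h1 : (Module.finrank ℂ (IntertwiningMap τ' τ') : ℂ) = 1 := by
    haveI : Invertible (Nat.card N : ℂ) := invertibleOfNonzero IC.cardG_ne
    rw [← card_inv_mul_sum_char_mul_char_eq_finrank]
    have := IC.B_irr h h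
    rw [if_pos rfl] at this
    exact this
  have h1' : Module.finrank ℂ (IntertwiningMap τ' τ') = 1 := by exact_mod_cast h1
  have hV : Nontrivial V := by
    obtain ⟨n, hn, h4⟩ := deg_pos h
    rw [char_one] at h4
    have h5 : Module.finrank ℂ V = n := by exact_mod_cast h4
    exact Module.nontrivial_of_finrank_pos (R := ℂ) (by rw [h5]; exact hn)
  let I : IntertwiningMap τ' τ' := ⟨LinearMap.id, fun g => rfl⟩
  have hI : I ≠ 0 := by
    intro h0
    have h4 : (LinearMap.id : V →ₗ[ℂ] V) = 0 := congrArg IntertwiningMap.toLinearMap h0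
    obtain ⟨v, hv⟩ := exists_ne (0 : V)
    exact hv (by simpa using congrArg (fun f : V →ₗ[ℂ] V => f v) h4)
  let T' : IntertwiningMap τ' τ' := ⟨T, fun g => hT g⟩
  obtain ⟨c, hc⟩ := (finrank_eq_one_iff_of_nonzero' I hI).mp h1' T'
  exact ⟨c, (congrArg IntertwiningMap.toLinearMap hc).symm⟩

end schur

section coset

variable {N W V : Type} [Group N] [Group W] [Fintype N] [AddCommGroup V]
    [Module ℂ V] [FiniteDimensional ℂ V] (i : N →* W) (τ : Representation ℂ W V)

/-- averaging -/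
theorem avg (h : IsIrr fun n => τ.character (i n)) (Y : V →ₗ[ℂ] V) :
    ∑ n, τ (i n) ∘ₗ Y ∘ₗ τ (i n)⁻¹ =
      ((Nat.card N : ℂ) * LinearMap.trace ℂ V Y / Module.finrank ℂ V) • LinearMap.id := by
  have hinv : ∀ w : W, τ w ∘ₗ τ w⁻¹ = LinearMap.id := by
    intro w
    rw [← Module.End.mul_eq_comp, ← map_mul, mul_inv_cancel, map_one]
    rfl
  have hinv' : ∀ w : W, τ w⁻¹ ∘ₗ τ w = LinearMap.id := by
    intro w
    rw [← Module.End.mul_eq_comp, ← map_mul, inv_mul_cancel, map_one]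
    rfl
  obtain ⟨c, hc⟩ := schur' i τ h (∑ n, τ (i n) ∘ₗ Y ∘ₗ τ (i n)⁻¹) (by
    intro m
    rw [← Module.End.mul_eq_comp, ← Module.End.mul_eq_comp, Finset.sum_mul, Finset.mul_sum]
    refine Fintype.sum_equiv (Equiv.mulLeft m⁻¹) _ _ fun n => ?_
    simp only [Equiv.coe_mulLeft, map_mul, map_inv, mul_inv_rev, inv_inv,
      ← Module.End.mul_eq_comp]
    have e : τ (i m) * τ (i m)⁻¹ = 1 := hinv (i m)
    calc τ (i n) * (Y * τ (i n)⁻¹) * τ (i m) = (τ (i m) * τ (i m)⁻¹) * (τ (i n) * (Y * τ (i n)⁻¹)) * τ (i m) := by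
          rw [e, one_mul]
      _ = τ (i m) * (τ (i m)⁻¹ * τ (i n) * (Y * (τ (i n)⁻¹ * τ (i m)))) := by
          simp only [mul_assoc])
  have hd : (Module.finrank ℂ V : ℂ) ≠ 0 := by
    obtain ⟨n, hn, h4⟩ := deg_pos h
    rw [map_one, char_one] at h4
    rw [h4]
    exact_mod_cast hn.ne'
  have h1 : LinearMap.trace ℂ V (∑ n, τ (i n) ∘ₗ Y ∘ₗ τ (i n)⁻¹) =
      (Nat.card N : ℂ) * LinearMap.trace ℂ V Y := by
    rw [map_sum]
    have : ∀ n : N, LinearMap.trace ℂ V (τ (i n) ∘ₗ Y ∘ₗ τ (i n)⁻¹) = LinearMap.trace ℂ V Y := by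
      intro n
      rw [← LinearMap.comp_assoc, LinearMap.trace_comp_comm', ← LinearMap.comp_assoc, hinv',
        LinearMap.id_comp]
    simp_rw [this]
    simp [Nat.card_eq_fintype_card]
  rw [hc, map_smul, LinearMap.trace_id, smul_eq_mul] at h1
  rw [hc, ← h1, mul_div_assoc, div_self hd, mul_one]

/-- the norm on a coset -/
theorem coset_norm (h : IsIrr fun n => τ.character (i n)) (x : W) :
    ∑ n, τ.character (i n * x) * τ.character (i n * x)⁻¹ = (Nat.card N : ℂ) := by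
  let b := Module.finBasis ℂ V
  have hd : (Module.finrank ℂ V : ℂ) ≠ 0 := by
    obtain ⟨n, hn, h4⟩ := deg_pos h
    rw [map_one, char_one] at h4
    rw [h4]
    exact_mod_cast hn.ne'
  have htr : ∀ A : V →ₗ[ℂ] V, LinearMap.trace ℂ V A = ∑ j, b.repr (A (b j)) j := by
    intro A
    rw [LinearMap.trace_eq_matrix_trace ℂ b]
    simp [Matrix.trace, LinearMap.toMatrix_apply]
  let Ejk : Fin (Module.finrank ℂ V) → Fin (Module.finrank ℂ V) → V →ₗ[ℂ] V := fun j k =>
    (b.coord k).smulRight (b j)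
  have h1 : ∀ n, τ.character (i n * x) * τ.character (i n * x)⁻¹ =
      ∑ j, ∑ k, b.repr ((τ (i n) ∘ₗ (τ x ∘ₗ Ejk j k ∘ₗ τ x⁻¹) ∘ₗ τ (i n)⁻¹) (b k)) j := by
    intro n
    unfold Representation.character
    rw [htr, htr, Finset.sum_mul_sum]
    refine Finset.sum_congr rfl fun j _ => Finset.sum_congr rfl fun k _ => ?_
    simp only [Ejk, LinearMap.comp_apply, LinearMap.smulRight_apply, map_smul,
      Module.Basis.coord_apply, mul_inv_rev, map_mul, Module.End.mul_apply, Finsupp.smul_apply,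
      smul_eq_mul]
    ring
  simp_rw [h1]
  have h2 : ∑ n : N, ∑ j, ∑ k, b.repr ((τ (i n) ∘ₗ (τ x ∘ₗ Ejk j k ∘ₗ τ x⁻¹) ∘ₗ τ (i n)⁻¹) (b k)) j =
      ∑ j, ∑ k, b.repr ((∑ n : N, τ (i n) ∘ₗ (τ x ∘ₗ Ejk j k ∘ₗ τ x⁻¹) ∘ₗ τ (i n)⁻¹) (b k)) j := by
    rw [Finset.sum_comm]
    refine Finset.sum_congr rfl fun j _ => ?_
    rw [Finset.sum_comm]
    refine Finset.sum_congr rfl fun k _ => ?_
    rw [LinearMap.sum_apply, map_sum, Finsupp.finsetSum_apply]
  rw [h2]
  simp_rw [avg i τ h]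
  have h3 : ∀ j k, LinearMap.trace ℂ V (τ x ∘ₗ Ejk j k ∘ₗ τ x⁻¹) = if j = k then 1 else 0 := by
    intro j k
    rw [← LinearMap.comp_assoc, LinearMap.trace_comp_comm', ← LinearMap.comp_assoc]
    have : τ x⁻¹ ∘ₗ τ x = LinearMap.id := by
      rw [← Module.End.mul_eq_comp, ← map_mul, inv_mul_cancel, map_one]
      rfl
    rw [this, LinearMap.id_comp]
    have h4 : LinearMap.trace ℂ V (Ejk j k) = b.coord k (b j) := by
      simp only [Ejk]
      rw [LinearMap.trace_smulRight]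
    rw [h4, Module.Basis.coord_apply, Module.Basis.repr_self, Finsupp.single_apply]
  simp_rw [h3]
  simp only [LinearMap.smul_apply, LinearMap.id_apply, map_smul, Module.Basis.repr_self,
    Finsupp.smul_apply, Finsupp.single_apply, smul_eq_mul]
  have h5 : ∀ j k : Fin (Module.finrank ℂ V), (Nat.card N : ℂ) * (if j = k then 1 else 0) /
      Module.finrank ℂ V * (if k = j then 1 else 0) =
      if j = k then (Nat.card N : ℂ) / Module.finrank ℂ V else 0 := by
    intro j k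
    by_cases hjk : j = k
    · subst hjk
      simp
    · simp [hjk]
  simp_rw [h5]
  simp only [Finset.sum_ite_eq, Finset.mem_univ, if_true, Finset.sum_const, Finset.card_univ,
    Fintype.card_fin, nsmul_eq_mul]
  field_simp

end coset

section sd

variable {N S V : Type} [Group N] [Group S] [Fintype N] [Fintype S] {φ : S →* MulAut N}
    [AddCommGroup V] [Module ℂ V] [FiniteDimensional ℂ V]

/-- the product of a function on `N ⋊ S` and a function on `S` -/
def up (E : N ⋊[φ] S → ℂ) (ψ : S → ℂ) (x : N ⋊[φ] S) : ℂ := E x * ψ x.right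

variable (τ : Representation ℂ (N ⋊[φ] S) V)

theorem coset_sd (h : IsIrr fun n : N => τ.character (inl n)) (s : S) :
    ∑ n, τ.character ⟨n, s⟩ * τ.character (⟨n, s⟩ : N ⋊[φ] S)⁻¹ = (Nat.card N : ℂ) := by
  rw [← coset_norm (inl : N →* N ⋊[φ] S) τ h (inr s)]
  refine Finset.sum_congr rfl fun n _ => ?_
  rw [mk_eq_inl_mul_inr]

theorem B_up (h : IsIrr fun n : N => τ.character (inl n)) (ψ ψ' : S → ℂ) :
    IC.B (up τ.character ψ) (up τ.character ψ') = IC.B ψ ψ' := by
  unfold IC.B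
  rw [sum_sd, Finset.sum_comm, card_sd]
  have h1 : ∀ s : S, ∑ n, up τ.character ψ ⟨n, s⟩ * up τ.character ψ' (⟨n, s⟩ : N ⋊[φ] S)⁻¹ =
      Nat.card N * (ψ s * ψ' s⁻¹) := by
    intro s
    rw [← coset_sd τ h s, Finset.sum_mul]
    refine Finset.sum_congr rfl fun n _ => ?_
    unfold up
    rw [inv_right]
    ring
  simp_rw [h1]
  rw [← Finset.mul_sum]
  have hN : (Nat.card N : ℂ) ≠ 0 := by exact_mod_cast Nat.card_pos.ne'
  push_cast
  rw [mul_inv]
  field_simp

theorem up_irr (h : IsIrr fun n : N => τ.character (inl n)) {ψ : S → ℂ} (hψ : IsIrr ψ) :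
    IsIrr (up τ.character ψ) := by
  have hn : IC.B (up τ.character ψ) (up τ.character ψ) = 1 := by
    rw [B_up τ h, IC.B_irr hψ hψ, if_pos rfl]
  obtain ⟨U, _, _, _, σ, hσ, rfl⟩ := hψ
  have e : up τ.character σ.character = (τ.tprod (σ.comp rightHom)).character := by
    rw [char_tensor]
    rfl
  rw [e] at hn ⊢
  refine irr_of_norm (IC.isClass_char _) ?_ hn ⟨Module.finrank ℂ _, char_one _⟩
  rintro χ ⟨U', _, _, _, σ', _, rfl⟩
  obtain ⟨n, hn'⟩ := B_nat (τ.tprod (σ.comp rightHom)) σ'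
  exact ⟨n, by rw [hn']; norm_cast⟩

theorem up_inj (h : IsIrr fun n : N => τ.character (inl n)) {ψ ψ' : S → ℂ} (h1 : IsIrr ψ)
    (h2 : IsIrr ψ') (he : up τ.character ψ = up τ.character ψ') : ψ = ψ' := by
  by_contra hne
  have h3 := B_up τ h ψ ψ'
  rw [← he, B_up τ h, IC.B_irr h1 h1, if_pos rfl, IC.B_irr h1 h2, if_neg hne] at h3
  exact one_ne_zero h3

/-- the sums over the classes, coset by coset -/
def cc (E : N ⋊[φ] S → ℂ) (x : N ⋊[φ] S) (t : S) : ℂ :=
  (∑ n : N, if IsConj x ⟨n, t⟩ then E ⟨n, t⟩ else 0) / E 1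

theorem cc_cl (x : N ⋊[φ] S) : IsCl (cc τ.character x) := by
  intro t u
  unfold cc
  congr 1
  refine (Fintype.sum_equiv (φ u).toEquiv _ _ fun n => ?_).symm
  have e : (⟨(φ u).toEquiv n, u * t * u⁻¹⟩ : N ⋊[φ] S) = inr u * ⟨n, t⟩ * (inr u)⁻¹ := by
    ext
    · simp
    · simp
  have h1 : IsConj (⟨n, t⟩ : N ⋊[φ] S) ⟨(φ u).toEquiv n, u * t * u⁻¹⟩ := by
    rw [e]
    exact isConj_iff.mpr ⟨inr u, rfl⟩
  have h2 : τ.character (⟨(φ u).toEquiv n, u * t * u⁻¹⟩ : N ⋊[φ] S) = τ.character ⟨n, t⟩ := by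
    rw [e]
    exact τ.char_conj _ _
  have h3 : IsConj x ⟨n, t⟩ ↔ IsConj x ⟨(φ u).toEquiv n, u * t * u⁻¹⟩ :=
    ⟨fun h => h.trans h1, fun h => h.trans h1.symm⟩
  rw [h2]
  simp only [h3]

theorem cc_int (h : IsIrr fun n : N => τ.character (inl n)) (x : N ⋊[φ] S) (t : S) :
    IsIntegral ℤ (cc τ.character x t) := by
  have hV : Nontrivial V := by
    obtain ⟨n, hn, h4⟩ := deg_pos h
    rw [map_one, char_one] at h4
    have h5 : Module.finrank ℂ V = n := by exact_mod_cast h4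
    exact Module.nontrivial_of_finrank_pos (R := ℂ) (by rw [h5]; exact hn)
  let s : Finset (N ⋊[φ] S) :=
    ((Finset.univ : Finset N).filter fun n => IsConj x ⟨n, t⟩).image fun n => ⟨n, t⟩
  have hinj : Function.Injective fun n : N => (⟨n, t⟩ : N ⋊[φ] S) := fun a b hab =>
    congrArg SemidirectProduct.left hab
  have hs : ∀ {M : Type} [AddCommMonoid M] (F : N ⋊[φ] S → M), ∑ y ∈ s, F y =
      ∑ n : N, if IsConj x ⟨n, t⟩ then F ⟨n, t⟩ else 0 := by
    intro M _ F
    simp only [s]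
    rw [Finset.sum_image fun a _ b _ hab => hinj hab, Finset.sum_filter]
  obtain ⟨c, hc⟩ := schur' (inl : N →* N ⋊[φ] S) τ h (∑ y ∈ s, τ y) (by
    intro m
    rw [← Module.End.mul_eq_comp, ← Module.End.mul_eq_comp, hs, Finset.sum_mul, Finset.mul_sum]
    refine Fintype.sum_equiv ((Equiv.mulLeft m⁻¹).trans (Equiv.mulRight (φ t m))) _ _
      fun n => ?_
    have e : (⟨((Equiv.mulLeft m⁻¹).trans (Equiv.mulRight (φ t m))) n, t⟩ : N ⋊[φ] S) =
        (inl m)⁻¹ * ⟨n, t⟩ * inl m := by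
      ext
      · simp
      · simp
    have h1 : IsConj (⟨n, t⟩ : N ⋊[φ] S)
        ⟨((Equiv.mulLeft m⁻¹).trans (Equiv.mulRight (φ t m))) n, t⟩ := by
      rw [e]
      exact isConj_iff.mpr ⟨(inl m)⁻¹, by rw [inv_inv]⟩
    have h3 : IsConj x ⟨n, t⟩ ↔
        IsConj x ⟨((Equiv.mulLeft m⁻¹).trans (Equiv.mulRight (φ t m))) n, t⟩ :=
      ⟨fun h => h.trans h1, fun h => h.trans h1.symm⟩
    simp only [← h3]
    rw [e, ite_mul, mul_ite, zero_mul, mul_zero]
    congr 1
    rw [← map_mul, ← map_mul]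
    congr 1
    group)
  have h1 := congrArg (LinearMap.trace ℂ V) hc
  rw [map_smul, LinearMap.trace_id, map_sum, smul_eq_mul, ← τ.char_one] at h1
  have h2 : ∑ y ∈ s, LinearMap.trace ℂ V (τ y) = ∑ n : N, if IsConj x ⟨n, t⟩ then
      τ.character ⟨n, t⟩ else 0 := hs _
  rw [h2] at h1
  have h3 : τ.character 1 ≠ 0 := by
    have := h.one_ne
    rwa [map_one] at this
  have h4 : cc τ.character x t = c := by
    unfold cc
    rw [h1, mul_div_assoc, div_self h3, mul_one]
  rw [h4]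
  exact integral_of_scalar τ s c hc

theorem omega_up (ψ : S → ℂ) (h : IsIrr fun n : N => τ.character (inl n)) (x : N ⋊[φ] S)
    (hψ : IsIrr ψ) :
    omega (up τ.character ψ) x = Om (cc τ.character x) ψ := by
  have hu := up_irr τ h hψ
  have h1 : (Nat.card {y : N ⋊[φ] S // IsConj x y} : ℂ) * up τ.character ψ x =
      ∑ y : N ⋊[φ] S, if IsConj x y then up τ.character ψ y else 0 := by
    rw [← Finset.sum_filter, Finset.sum_congr rfl (g := fun _ => up τ.character ψ x)
      (fun y hy => (hu.isConj (Finset.mem_filter.mp hy).2).symm), Finset.sum_const, nsmul_eq_mul,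
      Nat.card_eq_fintype_card, Fintype.card_subtype]
  unfold omega Om cc
  rw [h1, sum_sd, Finset.sum_comm]
  have h2 : up τ.character ψ 1 = τ.character 1 * ψ 1 := rfl
  rw [h2, ← div_div]
  congr 1
  rw [Finset.sum_div]
  refine Finset.sum_congr rfl fun t _ => ?_
  rw [div_mul_eq_mul_div, Finset.sum_mul]
  congr 1
  refine Finset.sum_congr rfl fun n _ => ?_
  unfold up
  split_ifs
  · rfl
  · rw [zero_mul]

variable {O : ValuationSubring ℂ}

/-- **The block above.** -/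
theorem up_block (h : IsIrr fun n : N => τ.character (inl n))
    (hO : τ.character 1 * (Nat.card N : ℂ)⁻¹ ∈ O) {B : Set (S → ℂ)} (hB : IsBlock O B) :
    IsBlock O (up τ.character '' B) := by
  have hint : ∀ x : N ⋊[φ] S, τ.character x ∈ O := by
    intro x
    have := up_irr τ h (ψ := fun _ => 1) (by simpa using lin_irr (1 : S →* ℂˣ))
    have h2 := this.val_mem O x
    unfold up at h2
    rwa [mul_one] at h2
  obtain ⟨ψ₀, h0⟩ := hB.nonempty
  refine isBlock_of ⟨_, ψ₀, h0, rfl⟩ ?_ ?_ ?_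
  · rintro _ ⟨ψ, hψ, rfl⟩
    exact up_irr τ h (hB.irr ψ hψ)
  · rintro _ ⟨ψ, hψ, rfl⟩ _ ⟨ψ', hψ', rfl⟩ x
    rw [omega_up τ ψ h x (hB.irr ψ hψ), omega_up τ ψ' h x (hB.irr ψ' hψ')]
    exact red_Om_eq hB hψ hψ' (cc_cl τ x) fun t => mem_of_isIntegral (cc_int τ h x t)
  · intro x
    have e : up τ.character '' B = up τ.character '' (fs B : Set (S → ℂ)) := by
      rw [coe_fs hB.irr]
    rw [e, blockCoeff_image (fs B) (up τ.character) (by
      intro ψ hψ ψ' hψ' he
      rw [Finset.mem_coe, mem_fs hB.irr] at hψ hψ'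
      exact up_inj τ h (hB.irr _ hψ) (hB.irr _ hψ') he)]
    have h1 : (Nat.card (N ⋊[φ] S) : ℂ)⁻¹ * ∑ ψ ∈ fs B, up τ.character ψ 1 * up τ.character ψ x⁻¹ =
        (τ.character 1 * (Nat.card N : ℂ)⁻¹) * τ.character x⁻¹ * blockCoeff B x.right := by
      rw [blockCoeff_fs hB.irr, card_sd]
      push_cast
      rw [mul_inv, Finset.mul_sum, Finset.mul_sum, Finset.mul_sum]
      refine Finset.sum_congr rfl fun ψ _ => ?_
      unfold up
      rw [inv_right, one_right]
      ring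
    rw [h1]
    exact O.mul_mem _ _ (O.mul_mem _ _ hO (hint _)) (blockCoeff_mem hB _)

theorem card_up (h : IsIrr fun n : N => τ.character (inl n)) {B : Set (S → ℂ)}
    (hB : ∀ ψ ∈ B, IsIrr ψ) : Nat.card (up τ.character '' B) = Nat.card B :=
  Nat.card_image_of_injOn fun _ hψ _ hψ' he => up_inj τ h (hB _ hψ) (hB _ hψ') he

theorem up_defect {p : ℕ} (h : IsIrr fun n : N => τ.character (inl n)) {m : ℕ}
    (hm : (m : ℂ) = τ.character 1) (hp : m.factorization p = (Nat.card N).factorization p)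
    {B : Set (S → ℂ)} (hB : ∀ ψ ∈ B, IsIrr ψ) {d : ℕ} (hd : HasDefect p B d) :
    HasDefect p (up τ.character '' B) d := by
  have hup : ∀ χ ∈ up τ.character '' B, IsIrr χ := by
    rintro _ ⟨ψ, hψ, rfl⟩
    exact up_irr τ h (hB ψ hψ)
  have hm0 : m ≠ 0 := by
    rintro rfl
    have := h.one_ne
    rw [map_one, ← hm] at this
    exact this (by simp)
  have hv : ∀ ψ ∈ B, vd p (up τ.character ψ) = (Nat.card N).factorization p + vd p ψ := by
    intro ψ hψ
    have h1 : ndeg (up τ.character ψ) = m * ndeg ψ := by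
      apply ndeg_eq
      push_cast
      rw [hm, ndeg_cast (hB ψ hψ)]
      rfl
    unfold vd
    rw [h1, Nat.factorization_mul hm0 (ndeg_pos (hB ψ hψ)).ne', Finsupp.add_apply, hp]
  rw [hasDefect_iff hB] at hd
  rw [hasDefect_iff hup, card_sd, Nat.factorization_mul Nat.card_pos.ne' Nat.card_pos.ne',
    Finsupp.add_apply]
  obtain ⟨h1, ψ₀, h2, h3⟩ := hd
  constructor
  · rintro _ ⟨ψ, hψ, rfl⟩
    rw [hv ψ hψ]
    have := h1 ψ hψ
    omega
  · refine ⟨_, ⟨ψ₀, h2, rfl⟩, ?_⟩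
    rw [hv ψ₀ h2]
    omega

end sd

end Pool.Agent.K3h3.KT
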