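import Pool.Agent.K3h3.KT.Top

/-!
# The structure of the regular wreath product of a simple group
-/

set_option autoImplicit false
set_option linter.unusedSectionVars false
set_option linter.style.haveILetI false

open scoped BigOperators Classical

noncomputable section

namespace Pool.Agent.K3h3.KT

open SemidirectProduct
open Pool.Agent.K3h3.KB
open Pool.Agent.K3h3.MK (Wr rAct rAct_apply)

variable {K S : Type} [Group K] [Group S]

/-- the element `k` in the coordinate `i` of the base group -/
def si (i : S) : K →* Wr K S := (inl : (S → K) →* Wr K S).comp (MonoidHom.mulSingle (fun _ : S => K) i)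

theorem si_apply (i : S) (k : K) : (si i k : Wr K S) = inl (Pi.mulSingle i k) := rfl

theorem rAct_single (s i : S) (k : K) :
    rAct K S s (Pi.mulSingle i k) = Pi.mulSingle (s * i) k := by
  funext j
  rw [rAct_apply]
  by_cases h : j = s * i
  · subst h
    rw [Pi.mulSingle_eq_same, inv_mul_cancel_left, Pi.mulSingle_eq_same]
  · rw [Pi.mulSingle_eq_of_ne h, Pi.mulSingle_eq_of_ne]
    intro h'
    apply h
    rw [← h', mul_inv_cancel_left]

theorem si_conj (s i : S) (k : K) : (inr s * si i k * (inr s)⁻¹ : Wr K S) = si (s * i) k := by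
  rw [si_apply, si_apply, ← rAct_single, inl_aut, map_inv]

theorem mem_of_si {H : Subgroup (Wr K S)} [Finite S] (h : ∀ i k, si i k ∈ H) (n : S → K) :
    (inl n : Wr K S) ∈ H := by
  have h1 : n ∈ H.comap (inl : (S → K) →* Wr K S) := by
    apply Subgroup.pi_mem_of_mulSingle_mem
    intro i
    exact h i (n i)
  exact h1

/-- if a subgroup contains one coordinate and the top group it is everything -/
theorem top_of_si {H : Subgroup (Wr K S)} [Finite S] {i : S} (h : ∀ k, si i k ∈ H)
    (hr : ∀ s : S, (inr s : Wr K S) ∈ H) : H = ⊤ := by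
  have h1 : ∀ j k, si j k ∈ H := by
    intro j k
    have h2 := si_conj (j * i⁻¹) i k
    rw [inv_mul_cancel_right] at h2
    rw [← h2]
    exact H.mul_mem (H.mul_mem (hr _) (h k)) (H.inv_mem (hr _))
  rw [eq_top_iff]
  intro x _
  rw [← inl_left_mul_inr_right x]
  exact H.mul_mem (mem_of_si h1 _) (hr _)

theorem comm_single (n : S → K) (i : S) (b : K) :
    n * Pi.mulSingle i b * n⁻¹ * (Pi.mulSingle i b)⁻¹ = Pi.mulSingle i (n i * b * (n i)⁻¹ * b⁻¹) := by
  funext j
  simp only [Pi.mul_apply, Pi.inv_apply]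
  by_cases h : j = i
  · subst h
    simp
  · rw [Pi.mulSingle_eq_of_ne h, Pi.mulSingle_eq_of_ne h]
    simp

/-- the subgroup generated by the copies of `Q` is normal -/
theorem gen_normal {Q G : Type} [Group Q] [Group G] :
    (sSup {H : Subgroup G | Nonempty (H ≃* Q)}).Normal := by
  refine ⟨fun n hn x => ?_⟩
  exact (gen_equiv (Q := Q) (MulAut.conj x) n).mpr hn

theorem gen_wr {Q : Type} [Group Q] [Finite S] [Nontrivial S] (hK : commutator K = ⊤)
    (hS : GenBy Q S) : GenBy Q (Wr K S) := by
  have hr : ∀ s : S, (inr s : Wr K S) ∈ sSup {H : Subgroup (Wr K S) | Nonempty (H ≃* Q)} :=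
    mem_gen_of_hom _ inr_injective hS
  have hn := gen_normal (Q := Q) (G := Wr K S)
  unfold GenBy
  set H := sSup {H : Subgroup (Wr K S) | Nonempty (H ≃* Q)}
  obtain ⟨s, hs⟩ := exists_ne (1 : S)
  refine top_of_si (i := 1) ?_ hr
  have h1 : commutator K ≤ H.comap (si 1) := by
    rw [commutator_def, Subgroup.commutator_le]
    intro a _ b _
    rw [Subgroup.mem_comap]
    -- `single 1 a * single s a⁻¹`
    have h2 : (inl (Pi.mulSingle 1 a * (Pi.mulSingle s a)⁻¹) : Wr K S) ∈ H := by
      have h3 : (si 1 a * inr s * (si 1 a)⁻¹ * (inr s)⁻¹ : Wr K S) ∈ H :=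
        H.mul_mem (hn.conj_mem _ (hr s) _) (H.inv_mem (hr s))
      have h4 : (si 1 a * inr s * (si 1 a)⁻¹ * (inr s)⁻¹ : Wr K S) =
          si 1 a * (inr s * si 1 a * (inr s)⁻¹)⁻¹ := by group
      rw [h4, si_conj, mul_one] at h3
      rw [map_mul, map_inv]
      exact h3
    have h5 : (inl (Pi.mulSingle 1 a * (Pi.mulSingle s a)⁻¹) * si 1 b *
        (inl (Pi.mulSingle 1 a * (Pi.mulSingle s a)⁻¹))⁻¹ * (si 1 b)⁻¹ : Wr K S) ∈ H := by
      have h6 := hn.conj_mem _ (H.inv_mem h2) (si 1 b)
      have h7 := H.mul_mem h2 h6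
      simpa only [mul_assoc] using h7
    rw [si_apply, ← map_inv, ← map_inv, ← map_mul, ← map_mul, ← map_mul, comm_single] at h5
    have h8 : (Pi.mulSingle 1 a * (Pi.mulSingle s a)⁻¹ : S → K) 1 = a := by
      rw [Pi.mul_apply, Pi.inv_apply, Pi.mulSingle_eq_same, Pi.mulSingle_eq_of_ne hs.symm]
      simp
    rw [h8] at h5
    exact h5
  intro k
  have h2 : k ∈ commutator K := by
    rw [hK]
    exact Subgroup.mem_top k
  exact h1 h2

theorem mk_conj (x : Wr K S) (n : S → K) :
    x * inl n * x⁻¹ = inl (x.left * rAct K S x.right n * x.left⁻¹) := by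
  ext
  · simp [mul_assoc]
  · simp

/-- **The unique minimal normal subgroup.** -/
theorem min_normal [Finite S] [IsSimpleGroup K] (hK : commutator K = ⊤) {M : Subgroup (Wr K S)}
    (hM : M.Normal) (hne : M ≠ ⊥) : (inl : (S → K) →* Wr K S).range ≤ M := by
  -- a nontrivial element of the base group
  obtain ⟨n, hnM, hn1⟩ : ∃ n : S → K, (inl n : Wr K S) ∈ M ∧ n ≠ 1 := by
    obtain ⟨⟨x, hx⟩, hx0⟩ := Subgroup.ne_bot_iff_exists_ne_one.mp hne
    have hx1 : x ≠ 1 := fun h => hx0 (Subtype.ext h)
    by_cases hr : x.right = 1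
    · have e : (inl x.left : Wr K S) = x := by
        ext
        · simp
        · simp [hr]
      refine ⟨x.left, e ▸ hx, fun h => hx1 ?_⟩
      rw [← e, h, map_one]
    · obtain ⟨k, hk⟩ := exists_ne (1 : K)
      have h1 : (si 1 k * x * (si 1 k)⁻¹ * x⁻¹ : Wr K S) ∈ M :=
        M.mul_mem (hM.conj_mem _ hx _) (M.inv_mem hx)
      have h2 : (si 1 k * x * (si 1 k)⁻¹ * x⁻¹ : Wr K S) =
          si 1 k * (x * si 1 k * x⁻¹)⁻¹ := by group
      rw [h2, si_apply, mk_conj, rAct_single, ← map_inv, ← map_mul] at h1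
      refine ⟨_, h1, fun h => hk ?_⟩
      have h3 := congrFun h 1
      simp only [Pi.mul_apply, Pi.inv_apply, Pi.mulSingle_eq_same, Pi.one_apply, mul_one] at h3
      rw [Pi.mulSingle_eq_of_ne (Ne.symm hr)] at h3
      simpa using h3
  obtain ⟨i, hi⟩ := Function.ne_iff.mp hn1
  -- the centre of `K` is trivial
  obtain ⟨b, hb⟩ : ∃ b : K, n i * b * (n i)⁻¹ * b⁻¹ ≠ 1 := by
    by_contra hcon
    push Not at hcon
    have hc : n i ∈ Subgroup.center K := by
      rw [Subgroup.mem_center_iff]
      intro b
      have h1 := hcon b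
      rw [mul_inv_eq_one, mul_inv_eq_iff_eq_mul] at h1
      exact h1.symm
    rcases (inferInstance : (Subgroup.center K).Normal).eq_bot_or_eq_top with h | h
    · rw [h, Subgroup.mem_bot] at hc
      exact hi hc
    · have h1 : commutator K = ⊥ := by
        rw [commutator_def, Subgroup.commutator_eq_bot_iff_le_centralizer]
        intro x _
        rw [Subgroup.mem_centralizer_iff]
        intro y _
        have : x ∈ Subgroup.center K := h ▸ Subgroup.mem_top x
        exact (Subgroup.mem_center_iff.mp this y)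
      rw [h1] at hK
      exact bot_ne_top hK
  have h1 : ∀ k, si i k ∈ M := by
    have hnorm : (M.comap (si i)).Normal := inferInstance
    rcases hnorm.eq_bot_or_eq_top with h | h
    · exfalso
      have h2 : (inl n * si i b * (inl n)⁻¹ * (si i b)⁻¹ : Wr K S) ∈ M := by
        have h6 := hM.conj_mem _ (M.inv_mem hnM) (si i b)
        have h7 := M.mul_mem hnM h6
        simpa only [mul_assoc] using h7
      rw [si_apply, ← map_inv, ← map_inv, ← map_mul, ← map_mul, ← map_mul, comm_single] at h2
      have h3 : n i * b * (n i)⁻¹ * b⁻¹ ∈ M.comap (si i) := h2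
      rw [h, Subgroup.mem_bot] at h3
      exact hb h3
    · intro k
      have : k ∈ M.comap (si i) := h ▸ Subgroup.mem_top k
      exact this
  rintro _ ⟨m, rfl⟩
  refine mem_of_si (fun j k => ?_) m
  have h2 := si_conj (j * i⁻¹) i k
  rw [inv_mul_cancel_right] at h2
  rw [← h2]
  exact hM.conj_mem _ (h1 k) _

theorem index_base [Finite S] [Finite K] : (inl : (S → K) →* Wr K S).range.index = Nat.card S := by
  rw [range_inl_eq_ker_rightHom, Subgroup.index_ker,
    MonoidHom.range_eq_top.mpr rightHom_surjective]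
  exact Nat.card_congr Subgroup.topEquiv.toEquiv

instance base_normal : ((inl : (S → K) →* Wr K S).range).Normal := by
  rw [range_inl_eq_ker_rightHom]
  infer_instance

/-! ### the product action -/

/-- the stabiliser of a point in the product action -/
def stb (M : Subgroup K) : Subgroup (Wr K S) where
  carrier := {x | ∀ i, x.left i ∈ M}
  one_mem' i := M.one_mem
  mul_mem' {x y} hx hy i := by
    rw [mul_left, Pi.mul_apply, rAct_apply]
    exact M.mul_mem (hx i) (hy _)
  inv_mem' {x} hx i := by
    rw [inv_left, rAct_apply]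
    exact M.inv_mem (hx _)

theorem stb_coatom [Finite S] [Finite K] [IsSimpleGroup K] {M : Subgroup K} (hM : IsCoatom M)
    (hne : M ≠ ⊥) : IsCoatom (stb M : Subgroup (Wr K S)) := by
  have hr0 : ∀ s : S, (inr s : Wr K S) ∈ (stb M : Subgroup (Wr K S)) := by
    intro s i
    simp
  constructor
  · intro h
    apply hM.1
    rw [eq_top_iff]
    intro k _
    have h1 : (si 1 k : Wr K S) ∈ (stb M : Subgroup (Wr K S)) := h ▸ Subgroup.mem_top _
    have h2 := h1 1
    rw [si_apply, left_inl, Pi.mulSingle_eq_same] at h2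
    exact h2
  · intro H hH
    have hr : ∀ s : S, (inr s : Wr K S) ∈ H := fun s => hH.le (hr0 s)
    obtain ⟨x, hxH, hx⟩ := Set.exists_of_ssubset hH
    have hn : (inl x.left : Wr K S) ∈ H := by
      have e : (inl x.left : Wr K S) = x * (inr x.right)⁻¹ := by
        rw [eq_mul_inv_iff_mul_eq]
        exact inl_left_mul_inr_right x
      rw [e]
      exact H.mul_mem hxH (H.inv_mem (hr _))
    obtain ⟨i, hi⟩ : ∃ i, x.left i ∉ M := by
      by_contra hcon
      push Not at hcon
      exact hx hcon
    set k := x.left i with hk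
    have hMi : M ≤ H.comap (si i) := by
      intro m hm
      refine hH.le fun j => ?_
      rw [si_apply, left_inl]
      by_cases hj : j = i
      · subst hj
        rwa [Pi.mulSingle_eq_same]
      · rw [Pi.mulSingle_eq_of_ne hj]
        exact M.one_mem
    have hnn : ¬ M.Normal := by
      intro hnorm
      rcases hnorm.eq_bot_or_eq_top with h | h
      · exact hne h
      · exact hM.1 h
    have hnz : Subgroup.normalizer (M : Set K) = M := by
      rcases hM.le_iff.mp (Subgroup.le_normalizer (H := M)) with h | h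
      · exact absurd (Subgroup.normalizer_eq_top_iff.mp h) hnn
      · exact h
    obtain ⟨m, hm, hkm⟩ : ∃ m ∈ M, k * m * k⁻¹ ∉ M := by
      by_contra hcon
      push Not at hcon
      have h1 : k ∈ Subgroup.normalizer (M : Set K) := Subgroup.mem_normalizer_fintype hcon
      rw [hnz] at h1
      exact hi h1
    have h1 : H.comap (si i) = ⊤ := by
      apply hM.2
      refine lt_of_le_of_ne hMi fun h => hkm ?_
      have h2 : (inl x.left * si i m * (inl x.left)⁻¹ * (si i m)⁻¹ : Wr K S) ∈ H :=
        H.mul_mem (H.mul_mem (H.mul_mem hn (hMi hm)) (H.inv_mem hn)) (H.inv_mem (hMi hm))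
      rw [si_apply, ← map_inv, ← map_inv, ← map_mul, ← map_mul, ← map_mul, comm_single] at h2
      have h3 : k * m * k⁻¹ * m⁻¹ ∈ H.comap (si i) := h2
      rw [← h] at h3
      have h4 := M.mul_mem h3 hm
      rwa [inv_mul_cancel_right] at h4
    refine top_of_si (i := i) (fun k => ?_) hr
    have : k ∈ H.comap (si i) := h1 ▸ Subgroup.mem_top k
    exact this

end Pool.Agent.K3h3.KT
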