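import Pool.Agent.K3h3.KT.Alt

/-!
# Blocks of the regular wreath product above a character of full defect zero of the base group
-/

set_option autoImplicit false
set_option linter.unusedSectionVars false
set_option linter.style.haveILetI false

open scoped BigOperators Classical

noncomputable section

namespace Pool.Agent.K3h3.KT

open Pool.Agent.Helper884 Pool.Agent.H254R3.IN Pool.Agent.Q288.MB SemidirectProduct
open Pool.Agent.Q90.WR (irr_of_norm deg_pos irr_comp B_nat irr_nontrivial irr_gal)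
open Pool.Agent.K3h3.KB
open Pool.Agent.K3h3.MK (Wr rAct tRep tRep_char)
open IC (Irr)
open Representation

variable {p : ℕ} [hp : Fact p.Prime] {O : ValuationSubring ℂ}

theorem div_mem (hpO : (p : ℂ) ∈ O.nonunits) {m n : ℕ} (hm : m ≠ 0) (hn : n ≠ 0)
    (h : m.factorization p = n.factorization p) : (m : ℂ) * (n : ℂ)⁻¹ ∈ O := by
  obtain ⟨ha1, ha2⟩ := pPrimePart_spec (p := p) hm
  obtain ⟨hb1, hb2⟩ := pPrimePart_spec (p := p) hn
  set a' := pPrimePart p m
  set b' := pPrimePart p n
  have hp0 : (p : ℂ) ≠ 0 := by exact_mod_cast hp.out.ne_zero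
  have hb0 : (b' : ℂ) ≠ 0 := by
    intro h0
    have : b' = 0 := by exact_mod_cast h0
    exact hb2 (this ▸ dvd_zero p)
  have e1 : (m : ℂ) = (p : ℂ) ^ m.factorization p * a' := by exact_mod_cast ha1
  have e2 : (n : ℂ) = (p : ℂ) ^ m.factorization p * b' := by
    rw [h]
    exact_mod_cast hb1
  have e3 : (m : ℂ) * (n : ℂ)⁻¹ = a' * (b' : ℂ)⁻¹ := by
    rw [e1, e2, mul_inv]
    field_simp
  rw [e3]
  exact O.mul_mem _ _ (natCast_mem' _) (nat_inv_mem hpO hb2)

theorem exists_over {K S : Type} [Group K] [Group S] [Fintype K] [Fintype S]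
    (hS : commutator S = ⊤) (hpO : (p : ℂ) ∈ O.nonunits)
    {θ : K → ℂ} (hθ : IsIrr θ) (hσ : ∀ (σ : ℂ ≃+* ℂ) k, σ (θ k) = θ k)
    (hv : vd p θ = (Nat.card K).factorization p)
    {B : Set (S → ℂ)} (hB : IsBlock O B) (hs : ∀ σ : ℂ ≃+* ℂ, gal σ B = B) {d : ℕ}
    (hd : HasDefect p B d) :
    ∃ B' : Set (Wr K S → ℂ), IsBlock O B' ∧ (∀ σ : ℂ ≃+* ℂ, gal σ B' = B') ∧
      HasDefect p B' d ∧ Nat.card B' = Nat.card B := by
  obtain ⟨V, _, _, _, ρ, hr, rfl⟩ := id hθ
  let b := Module.finBasis ℂ V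
  let R : K →* Matrix (Fin (Module.finrank ℂ V)) (Fin (Module.finrank ℂ V)) ℂ :=
    ((LinearMap.toMatrixAlgEquiv b).toAlgHom.toMonoidHom : (V →ₗ[ℂ] V) →* _).comp ρ
  have hR : ∀ g, (R g).trace = ρ.character g := by
    intro g
    change (LinearMap.toMatrix b b (ρ g)).trace = LinearMap.trace ℂ V (ρ g)
    rw [LinearMap.trace_eq_matrix_trace ℂ b]
  let τ : Representation ℂ (Wr K S) ((S → Fin (Module.finrank ℂ V)) → ℂ) := tRep (S := S) R
  have h1 : ∀ g : S → K, τ.character ((inl : (S → K) →* Wr K S) g) =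
      bt (fun _ : S => ρ.character) g := by
    intro g
    rw [tRep_char]
    unfold bt
    exact Finset.prod_congr rfl fun i _ => hR (g i)
  have hbt : IsIrr (bt (fun _ : S => ρ.character)) := bt_irr fun _ => hθ
  have h : IsIrr fun n : S → K => τ.character ((inl : (S → K) →* Wr K S) n) := by
    rw [show (fun n : S → K => τ.character ((inl : (S → K) →* Wr K S) n)) =
      bt (fun _ : S => ρ.character) from funext h1]
    exact hbt
  have hm : (ndeg (bt (fun _ : S => ρ.character)) : ℂ) = τ.character 1 := by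
    rw [ndeg_cast hbt, ← h1, map_one]
  have hp' : (ndeg (bt (fun _ : S => ρ.character))).factorization p =
      (Nat.card (S → K)).factorization p := by
    change vd p (bt (fun _ : S => ρ.character)) = _
    rw [vd_bt (fun _ => hθ), hv, Nat.card_fun, Nat.factorization_pow, Finset.sum_const,
      Finset.card_univ, Nat.card_eq_fintype_card (α := S)]
    rfl
  have hO : τ.character 1 * (Nat.card (S → K) : ℂ)⁻¹ ∈ O := by
    rw [← hm]
    exact div_mem hpO (ndeg_pos hbt).ne' Nat.card_pos.ne' hp'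
  refine ⟨up τ.character '' B, up_block τ h hO hB, fun σ => ?_, up_defect τ h hm hp' hB.irr hd,
    card_up τ h hB.irr⟩
  rw [gal_up σ (gal_fix τ hS h σ fun n => ?_), hs σ]
  rw [h1]
  unfold bt
  rw [map_prod]
  exact Finset.prod_congr rfl fun i _ => hσ σ _

end Pool.Agent.K3h3.KT
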